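import Pool.Agent.U333.QN.Sim

/-!
# The scaled q-numerical range as a union of circles
-/

set_option autoImplicit false

open Polynomial Complex

namespace Pool.Agent.U333.QN

variable {E : Type*} [NormedAddCommGroup E] [InnerProductSpace ℂ E]

/-- the scaled `q`-numerical range of an operator -/
def Om (A : E →L[ℂ] E) (q : ℂ) : Set ℂ :=
  {z | ∃ x y : E, ‖x‖ = 1 ∧ ‖y‖ = 1 ∧ inner ℂ y x = q ∧ z = inner ℂ y (A x) / q}

/-- the deviation of `A` at `x` -/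
noncomputable def dev (A : E →L[ℂ] E) (x : E) : E := A x - (inner ℂ x (A x) : ℂ) • x

theorem inner_dev (A : E →L[ℂ] E) {x : E} (hx : ‖x‖ = 1) : inner ℂ x (dev A x) = 0 := by
  unfold dev
  rw [inner_sub_right, inner_smul_right, inner_self_eq_norm_sq_to_K, hx]
  simp

theorem A_eq_dev (A : E →L[ℂ] E) (x : E) : A x = dev A x + (inner ℂ x (A x) : ℂ) • x := by
  unfold dev; abel

theorem normsq_comb {x z : E} (hx : ‖x‖ = 1) (hz : ‖z‖ = 1) (h : inner ℂ z x = 0) (a b : ℂ) :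
    ‖a • x + b • z‖ ^ 2 = ‖a‖ ^ 2 + ‖b‖ ^ 2 := by
  have h' : inner ℂ (a • x) (b • z) = 0 := by
    rw [inner_smul_left, inner_smul_right, ← inner_conj_symm, h]; simp
  rw [sq, norm_add_sq_eq_norm_sq_add_norm_sq_of_inner_eq_zero _ _ h', norm_smul, norm_smul, hx, hz]
  ring

theorem mem_Om_circle (A : E →L[ℂ] E) {q : ℂ} (hq0 : 0 < ‖q‖) (hq1 : ‖q‖ ≤ 1) {x : E} (hx : ‖x‖ = 1)
    (hz : ‖q‖ = 1 ∨ ∃ z : E, ‖z‖ = 1 ∧ inner ℂ z x = 0) (l : ℂ)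
    (hl : ‖l‖ = Real.sqrt (1 - ‖q‖ ^ 2) / ‖q‖ * ‖dev A x‖) :
    (inner ℂ x (A x) : ℂ) + l ∈ Om A q := by
  have hqne : q ≠ 0 := norm_pos_iff.mp hq0
  have hnn : 0 ≤ 1 - ‖q‖ ^ 2 := by nlinarith
  -- general construction
  have key : ∀ (z : E) (b : ℂ), ‖z‖ = 1 → inner ℂ z x = 0 → ‖b‖ ^ 2 = 1 - ‖q‖ ^ 2 →
      b * inner ℂ z (dev A x) = q * l → (inner ℂ x (A x) : ℂ) + l ∈ Om A q := by
    intro z b hz1 hzx hb hbl
    refine ⟨x, (starRingEnd ℂ) q • x + (starRingEnd ℂ) b • z, hx, ?_, ?_, ?_⟩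
    · have h1 := normsq_comb hx hz1 hzx ((starRingEnd ℂ) q) ((starRingEnd ℂ) b)
      rw [RCLike.norm_conj, RCLike.norm_conj, hb] at h1
      have h2 : ‖(starRingEnd ℂ) q • x + (starRingEnd ℂ) b • z‖ ^ 2 = 1 := by rw [h1]; ring
      exact (pow_eq_one_iff_of_nonneg (norm_nonneg _) two_ne_zero).mp h2
    · rw [inner_add_left, inner_smul_left, inner_smul_left, hzx, inner_self_eq_norm_sq_to_K, hx]
      simp
    · have h3 : inner ℂ z (A x) = inner ℂ z (dev A x) := by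
        conv_lhs => rw [A_eq_dev A x]
        rw [inner_add_right, inner_smul_right, hzx, mul_zero, add_zero]
      rw [inner_add_left, inner_smul_left, inner_smul_left, h3]
      simp only [RingHomCompTriple.comp_apply, RingHom.id_apply]
      rw [hbl]
      field_simp
  by_cases hd : ‖dev A x‖ = 0
  · have hl0 : l = 0 := by rw [hd, mul_zero] at hl; exact norm_eq_zero.mp hl
    have hdev : dev A x = 0 := norm_eq_zero.mp hd
    rcases hz with h1 | ⟨z, hz1, hz2⟩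
    · refine ⟨x, (starRingEnd ℂ) q • x, hx, ?_, ?_, ?_⟩
      · rw [norm_smul, hx, RCLike.norm_conj, h1, mul_one]
      · rw [inner_smul_left, inner_self_eq_norm_sq_to_K, hx]; simp
      · rw [inner_smul_left, hl0]
        simp only [RingHomCompTriple.comp_apply, RingHom.id_apply, add_zero]
        field_simp
    · refine key z ((Real.sqrt (1 - ‖q‖ ^ 2) : ℝ) : ℂ) hz1 hz2 ?_ ?_
      · rw [Complex.norm_real, Real.norm_of_nonneg (Real.sqrt_nonneg _), Real.sq_sqrt hnn]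
      · rw [hdev, hl0]; simp
  · have hdp : 0 < ‖dev A x‖ := lt_of_le_of_ne (norm_nonneg _) (Ne.symm hd)
    have hdc : ((‖dev A x‖ : ℝ) : ℂ) ≠ 0 := by exact_mod_cast hd
    refine key (((‖dev A x‖⁻¹ : ℝ) : ℂ) • dev A x) (l * q / (‖dev A x‖ : ℂ)) ?_ ?_ ?_ ?_
    · rw [norm_smul, Complex.norm_real, norm_inv, norm_norm, inv_mul_cancel₀ hd]
    · rw [inner_smul_left, ← inner_conj_symm, inner_dev A hx]; simp
    · rw [norm_div, norm_mul, hl, Complex.norm_real, norm_norm]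
      have : Real.sqrt (1 - ‖q‖ ^ 2) / ‖q‖ * ‖dev A x‖ * ‖q‖ / ‖dev A x‖ =
          Real.sqrt (1 - ‖q‖ ^ 2) := by field_simp
      rw [this, Real.sq_sqrt hnn]
    · rw [inner_smul_left, inner_self_eq_norm_sq_to_K, Complex.conj_ofReal]
      push_cast
      field_simp
      rfl

theorem disc_bound (A : E →L[ℂ] E) {q : ℂ} (hq0 : 0 < ‖q‖) (hq1 : ‖q‖ ≤ 1)
    (hz : ∀ x : E, ‖x‖ = 1 → ‖q‖ = 1 ∨ ∃ z : E, ‖z‖ = 1 ∧ inner ℂ z x = 0) (p : ℂ[X]) (M : ℝ)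
    (hM : ∀ w ∈ Om A q, ‖p.eval w‖ ≤ M) {x : E} (hx : ‖x‖ = 1) (l : ℂ)
    (hl : ‖l‖ ≤ Real.sqrt (1 - ‖q‖ ^ 2) / ‖q‖ * ‖dev A x‖) :
    ‖p.eval ((inner ℂ x (A x) : ℂ) + l)‖ ≤ M := by
  set R := Real.sqrt (1 - ‖q‖ ^ 2) / ‖q‖ * ‖dev A x‖ with hR
  have hR0 : 0 ≤ R := by positivity
  rcases eq_or_lt_of_le hR0 with h0 | hpos
  · apply hM
    apply mem_Om_circle A hq0 hq1 hx (hz x hx)
    rw [← hR]
    apply le_antisymm hl
    rw [← h0]; exact norm_nonneg _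
  · set c : ℂ := inner ℂ x (A x) with hc
    apply Complex.norm_le_of_forall_mem_frontier_norm_le (U := Metric.ball c R)
      (f := fun z => p.eval z) Metric.isBounded_ball
    · exact (p.differentiable).diffContOnCl
    · intro z hzf
      rw [frontier_ball _ hpos.ne', mem_sphere_iff_norm] at hzf
      apply hM
      have := mem_Om_circle A hq0 hq1 hx (hz x hx) (z - c) hzf
      rw [← hc] at this
      simpa using this
    · rw [closure_ball _ hpos.ne', mem_closedBall_iff_norm]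
      simpa using hl

theorem pair_bound (A : E →L[ℂ] E) {q : ℂ} (hq0 : 0 < ‖q‖) (hq1 : ‖q‖ ≤ 1)
    (hz : ∀ x : E, ‖x‖ = 1 → ‖q‖ = 1 ∨ ∃ z : E, ‖z‖ = 1 ∧ inner ℂ z x = 0) (p : ℂ[X]) (M : ℝ)
    (hM : ∀ w ∈ Om A q, ‖p.eval w‖ ≤ M) {u y : E} (h1 : inner ℂ y u = 1)
    (h2 : (‖u‖ * ‖y‖) ^ 2 ≤ 1 / ‖q‖ ^ 2) : ‖p.eval (inner ℂ y (A u))‖ ≤ M := by
  have hu : u ≠ 0 := by
    rintro rfl
    rw [inner_zero_right] at h1
    exact zero_ne_one h1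
  have hun : ‖u‖ ≠ 0 := norm_ne_zero_iff.mpr hu
  have hup : 0 < ‖u‖ := norm_pos_iff.mpr hu
  set x : E := ((‖u‖⁻¹ : ℝ) : ℂ) • u with hx
  have hx1 : ‖x‖ = 1 := by
    rw [hx, norm_smul, Complex.norm_real, norm_inv, norm_norm, inv_mul_cancel₀ hun]
  have hux : u = ((‖u‖ : ℝ) : ℂ) • x := by
    rw [hx, smul_smul, ← Complex.ofReal_mul, mul_inv_cancel₀ hun]; simp
  have hyx : inner ℂ y x = ((‖u‖⁻¹ : ℝ) : ℂ) := by
    rw [hx, inner_smul_right, h1, mul_one]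
  have hxy : inner ℂ x y = ((‖u‖⁻¹ : ℝ) : ℂ) := by
    rw [← inner_conj_symm, hyx, Complex.conj_ofReal]
  set y' : E := y - ((‖u‖⁻¹ : ℝ) : ℂ) • x with hy'
  have hy'x : inner ℂ x y' = 0 := by
    rw [hy', inner_sub_right, hxy, inner_smul_right, inner_self_eq_norm_sq_to_K, hx1]; simp
  have hy'n : ‖y‖ ^ 2 = ‖u‖⁻¹ ^ 2 + ‖y'‖ ^ 2 := by
    have e : y = ((‖u‖⁻¹ : ℝ) : ℂ) • x + y' := by rw [hy']; abel
    have h0 : inner ℂ (((‖u‖⁻¹ : ℝ) : ℂ) • x) y' = 0 := by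
      rw [inner_smul_left, hy'x, mul_zero]
    have := norm_add_sq_eq_norm_sq_add_norm_sq_of_inner_eq_zero _ _ h0
    rw [← e, norm_smul, hx1, Complex.norm_real, norm_inv, norm_norm] at this
    rw [sq, this]; ring
  have hw : inner ℂ y (A u) = (inner ℂ x (A x) : ℂ) + (‖u‖ : ℂ) * inner ℂ y' (dev A x) := by
    have e1 : A u = ((‖u‖ : ℝ) : ℂ) • A x := by
      conv_lhs => rw [hux]
      rw [map_smul]
    have e2 : y = ((‖u‖⁻¹ : ℝ) : ℂ) • x + y' := by rw [hy']; abel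
    have e3 : inner ℂ y' (A x) = inner ℂ y' (dev A x) := by
      have h0 : inner ℂ y' x = 0 := by rw [← inner_conj_symm, hy'x]; simp
      unfold dev
      rw [inner_sub_right, inner_smul_right, h0, mul_zero, sub_zero]
    rw [e1, inner_smul_right]
    conv_lhs => rw [e2]
    rw [inner_add_left, inner_smul_left, e3, Complex.conj_ofReal, mul_add, ← mul_assoc,
      ← Complex.ofReal_mul, mul_inv_cancel₀ hun]
    simp
  rw [hw]
  apply disc_bound A hq0 hq1 hz p M hM hx1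
  rw [norm_mul, Complex.norm_real, norm_norm]
  have h3 : ‖u‖ * ‖y'‖ ≤ Real.sqrt (1 - ‖q‖ ^ 2) / ‖q‖ := by
    have e : Real.sqrt (1 - ‖q‖ ^ 2) / ‖q‖ = Real.sqrt (1 / ‖q‖ ^ 2 - 1) := by
      have : 1 / ‖q‖ ^ 2 - 1 = (1 - ‖q‖ ^ 2) / ‖q‖ ^ 2 := by field_simp
      rw [this, Real.sqrt_div' _ (by positivity), Real.sqrt_sq hq0.le]
    rw [e]
    apply Real.le_sqrt_of_sq_le
    have h4 : (‖u‖ * ‖y‖) ^ 2 = 1 + (‖u‖ * ‖y'‖) ^ 2 := by
      rw [mul_pow, hy'n, mul_add, mul_pow, ← mul_pow ‖u‖ ‖u‖⁻¹, mul_inv_cancel₀ hun]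
      ring
    linarith
  calc ‖u‖ * ‖(inner ℂ y' (dev A x) : ℂ)‖ ≤ ‖u‖ * (‖y'‖ * ‖dev A x‖) := by
        gcongr; exact norm_inner_le_norm _ _
    _ = ‖u‖ * ‖y'‖ * ‖dev A x‖ := by ring
    _ ≤ Real.sqrt (1 - ‖q‖ ^ 2) / ‖q‖ * ‖dev A x‖ := by gcongr

theorem sim_bound [CompleteSpace E] [Nontrivial E] (A : E →L[ℂ] E) {q : ℂ} (hq0 : 0 < ‖q‖)
    (hq1 : ‖q‖ ≤ 1)
    (hz : ∀ x : E, ‖x‖ = 1 → ‖q‖ = 1 ∨ ∃ z : E, ‖z‖ = 1 ∧ inner ℂ z x = 0) (p : ℂ[X]) (M : ℝ)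
    (hM : ∀ w ∈ Om A q, ‖p.eval w‖ ≤ M) {κ : ℝ} (hκ : 0 < κ) (hκr : κ + κ⁻¹ = 2 / ‖q‖) {v : E}
    (hv : ‖v‖ = 1) : ‖Tm κ v * aeval A p * Sm κ v‖ ≤ 2 * M := by
  rw [← aeval_conj hκ.ne' hv]
  apply Pool.Agent.W753.CZ.crouzeix_bound
  rintro w ⟨x, hx, rfl⟩
  have h1 : inner ℂ x ((Tm κ v * A * Sm κ v) x) = inner ℂ (Tm κ v x) (A (Sm κ v x)) := by
    rw [inner_Tm]; rfl
  rw [h1]
  apply pair_bound A hq0 hq1 hz p M hM
  · have h2 : Tm κ v (Sm κ v x) = x := by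
      have := congrArg (fun B : E →L[ℂ] E => B x) (Tm_mul_Sm hκ.ne' hv)
      simpa using this
    rw [inner_Tm, h2, inner_self_eq_norm_sq_to_K, hx]; simp
  · exact kant hκ hq0 hκr hv hx

theorem base_bound [CompleteSpace E] [Nontrivial E] (A : E →L[ℂ] E) {q : ℂ} (hq0 : 0 < ‖q‖)
    (hq1 : ‖q‖ ≤ 1)
    (hz : ∀ x : E, ‖x‖ = 1 → ‖q‖ = 1 ∨ ∃ z : E, ‖z‖ = 1 ∧ inner ℂ z x = 0) (p : ℂ[X]) (M : ℝ)
    (hM : ∀ w ∈ Om A q, ‖p.eval w‖ ≤ M) : ‖aeval A p‖ ≤ 2 * M := by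
  apply Pool.Agent.W753.CZ.crouzeix_bound
  rintro w ⟨x, hx, rfl⟩
  apply pair_bound A hq0 hq1 hz p M hM
  · rw [inner_self_eq_norm_sq_to_K, hx]; simp
  · rw [hx]
    rw [one_mul, one_pow, le_div_iff₀ (by positivity)]
    nlinarith

end Pool.Agent.U333.QN
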