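import Pool.Agent.U333.QN.Disc

/-!
# The sharp constant for the scaled q-numerical range
-/

set_option autoImplicit false

open Polynomial Complex

namespace Pool.Agent.U333.QN

theorem moeb (z a : ℂ) (hz : ‖z‖ ≤ 1) :
    ‖z - a + (starRingEnd ℂ) a * z ^ 2 - ((‖a‖ ^ 2 : ℝ) : ℂ) * z‖ ≤ 1 + ‖a‖ ^ 2 := by
  have e0 : ((‖a‖ ^ 2 : ℝ) : ℂ) = (starRingEnd ℂ) a * a := by
    rw [← Complex.normSq_eq_conj_mul_self, Complex.normSq_eq_norm_sq]
  have e : z - a + (starRingEnd ℂ) a * z ^ 2 - ((‖a‖ ^ 2 : ℝ) : ℂ) * z =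
      (z - a) * (1 + (starRingEnd ℂ) a * z) := by rw [e0]; ring
  rw [e, norm_mul]
  have h1 : ‖z - a‖ ^ 2 + ‖1 + (starRingEnd ℂ) a * z‖ ^ 2 = (1 + ‖z‖ ^ 2) * (1 + ‖a‖ ^ 2) := by
    rw [← Complex.normSq_eq_norm_sq, ← Complex.normSq_eq_norm_sq, ← Complex.normSq_eq_norm_sq,
      ← Complex.normSq_eq_norm_sq]
    simp only [Complex.normSq_apply, Complex.sub_re, Complex.sub_im, Complex.add_re, Complex.add_im,
      Complex.mul_re, Complex.mul_im, Complex.conj_re, Complex.conj_im, Complex.one_re,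
      Complex.one_im]
    ring
  have h2 : (1 + ‖z‖ ^ 2) * (1 + ‖a‖ ^ 2) ≤ 2 * (1 + ‖a‖ ^ 2) := by
    have : ‖z‖ ^ 2 ≤ 1 := by nlinarith [norm_nonneg z]
    gcongr; linarith
  nlinarith [sq_nonneg (‖z - a‖ - ‖1 + (starRingEnd ℂ) a * z‖)]

variable {E : Type*} [NormedAddCommGroup E] [InnerProductSpace ℂ E]

theorem exists_attain [FiniteDimensional ℂ E] [Nontrivial E] (F : E →L[ℂ] E) :
    ∃ x : E, ‖x‖ = 1 ∧ ‖F x‖ = ‖F‖ := by
  have : ProperSpace E := FiniteDimensional.proper ℂ E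
  have hc : IsCompact (Metric.sphere (0 : E) 1) := isCompact_sphere 0 1
  obtain ⟨x1, hx1⟩ := exists_norm_eq E zero_le_one
  obtain ⟨x, hx, hmax⟩ := hc.exists_isMaxOn ⟨x1, by simpa using hx1⟩
    (f := fun y => ‖F y‖) (by fun_prop)
  have hx' : ‖x‖ = 1 := by simpa using hx
  refine ⟨x, hx', le_antisymm ?_ ?_⟩
  · calc ‖F x‖ ≤ ‖F‖ * ‖x‖ := F.le_opNorm x
      _ = ‖F‖ := by rw [hx', mul_one]
  · apply F.opNorm_le_bound (norm_nonneg _)
    intro y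
    by_cases hy : y = 0
    · simp [hy]
    have hyn : ‖y‖ ≠ 0 := norm_ne_zero_iff.mpr hy
    have hmem : (((‖y‖⁻¹ : ℝ) : ℂ) • y) ∈ Metric.sphere (0 : E) 1 := by
      simp only [mem_sphere_iff_norm, sub_zero]
      rw [norm_smul, Complex.norm_real, norm_inv, norm_norm, inv_mul_cancel₀ hyn]
    have h1 : ‖F (((‖y‖⁻¹ : ℝ) : ℂ) • y)‖ ≤ ‖F x‖ := hmax hmem
    rw [map_smul, norm_smul, Complex.norm_real, norm_inv, norm_norm] at h1
    calc ‖F y‖ = (‖y‖⁻¹ * ‖F y‖) * ‖y‖ := by field_simp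
      _ ≤ ‖F x‖ * ‖y‖ := by gcongr

/-- operators `p(A)` with `|p| ≤ 1` on the scaled range -/
def Pset (A : E →L[ℂ] E) (q : ℂ) : Set (E →L[ℂ] E) :=
  {F | ∃ p : ℂ[X], (∀ w ∈ Om A q, ‖p.eval w‖ ≤ 1) ∧ aeval A p = F}

/-- the Möbius-type variation -/
noncomputable def Psi (a : ℂ) (F : E →L[ℂ] E) : E →L[ℂ] E :=
  F - a • 1 + (starRingEnd ℂ) a • (F * F) - ((‖a‖ ^ 2 : ℝ) : ℂ) • F

theorem Psi_mem (A : E →L[ℂ] E) (q a : ℂ) {F : E →L[ℂ] E} (hF : F ∈ Pset A q) :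
    (((1 + ‖a‖ ^ 2)⁻¹ : ℝ) : ℂ) • Psi a F ∈ Pset A q := by
  obtain ⟨p, hp, rfl⟩ := hF
  have hpos : 0 < 1 + ‖a‖ ^ 2 := by positivity
  refine ⟨C (((1 + ‖a‖ ^ 2)⁻¹ : ℝ) : ℂ) * (p - C a + C ((starRingEnd ℂ) a) * p ^ 2 -
    C ((‖a‖ ^ 2 : ℝ) : ℂ) * p), ?_, ?_⟩
  · intro w hw
    simp only [eval_mul, eval_C, eval_sub, eval_add, eval_pow]
    rw [norm_mul, Complex.norm_real, norm_inv, Real.norm_of_nonneg hpos.le]
    calc (1 + ‖a‖ ^ 2)⁻¹ * ‖p.eval w - a + (starRingEnd ℂ) a * p.eval w ^ 2 -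
          ((‖a‖ ^ 2 : ℝ) : ℂ) * p.eval w‖ ≤ (1 + ‖a‖ ^ 2)⁻¹ * (1 + ‖a‖ ^ 2) := by
          gcongr; exact moeb _ _ (hp w hw)
      _ = 1 := inv_mul_cancel₀ hpos.ne'
  · unfold Psi
    simp only [map_mul, map_sub, map_add, aeval_C, Algebra.algebraMap_eq_smul_one, sq,
      smul_mul_assoc, one_mul]

theorem max_le [FiniteDimensional ℂ E] [Nontrivial E] (A : E →L[ℂ] E) {q : ℂ} (hq0 : 0 < ‖q‖)
    (hq1 : ‖q‖ ≤ 1)
    (hz : ∀ x : E, ‖x‖ = 1 → ‖q‖ = 1 ∨ ∃ z : E, ‖z‖ = 1 ∧ inner ℂ z x = 0)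
    {κ : ℝ} (hκ : 0 < κ) (hκr : κ + κ⁻¹ = 2 / ‖q‖) {G : E →L[ℂ] E} (hG : G ∈ Pset A q) :
    ‖G‖ ≤ max 1 (2 / κ) := by
  have : CompleteSpace E := FiniteDimensional.complete ℂ E
  have : ProperSpace (E →L[ℂ] E) := FiniteDimensional.proper ℂ _
  have hbase : ∀ F ∈ Pset A q, ‖F‖ ≤ 2 := by
    rintro F ⟨p, hp, rfl⟩
    simpa using base_bound A hq0 hq1 hz p 1 hp
  have hcl : closure (Pset A q) ⊆ {F | ‖F‖ ≤ 2} :=
    closure_minimal hbase (isClosed_le continuous_norm continuous_const)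
  have hcomp : IsCompact (closure (Pset A q)) := by
    apply Metric.isCompact_of_isClosed_isBounded isClosed_closure
    rw [isBounded_iff_forall_norm_le]
    exact ⟨2, fun F hF => hcl hF⟩
  obtain ⟨F, hF, hmax⟩ := hcomp.exists_isMaxOn ⟨G, subset_closure hG⟩ continuous_norm.continuousOn
  set K := ‖F‖ with hK
  have hmax' : ∀ H ∈ closure (Pset A q), ‖H‖ ≤ K := fun H hH => hmax hH
  refine (hmax' G (subset_closure hG)).trans ?_
  by_cases hK1 : K ≤ 1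
  · exact hK1.trans (le_max_left _ _)
  push Not at hK1
  refine le_trans ?_ (le_max_right _ _)
  have hK0 : 0 < K := by linarith
  -- the variation bound
  have hvar : ∀ a : ℂ, ‖Psi a F‖ ≤ (1 + ‖a‖ ^ 2) * K := by
    intro a
    have hpos : 0 < 1 + ‖a‖ ^ 2 := by positivity
    have hcont : Continuous (Psi a : (E →L[ℂ] E) → (E →L[ℂ] E)) := by
      unfold Psi; fun_prop
    have h1 : closure (Pset A q) ⊆ {H | ‖Psi a H‖ ≤ (1 + ‖a‖ ^ 2) * K} := by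
      apply closure_minimal _ (isClosed_le (continuous_norm.comp hcont) continuous_const)
      intro H hH
      have h2 := hmax' _ (subset_closure (Psi_mem A q a hH))
      rw [norm_smul, Complex.norm_real, norm_inv, Real.norm_of_nonneg hpos.le] at h2
      calc ‖Psi a H‖ = (1 + ‖a‖ ^ 2) * ((1 + ‖a‖ ^ 2)⁻¹ * ‖Psi a H‖) := by
            rw [← mul_assoc, mul_inv_cancel₀ hpos.ne', one_mul]
        _ ≤ (1 + ‖a‖ ^ 2) * K := by gcongr
    exact h1 hF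
  obtain ⟨x, hx, hFx⟩ := exists_attain F
  rw [← hK] at hFx
  have hKc : ((K : ℝ) : ℂ) ≠ 0 := by exact_mod_cast hK0.ne'
  set v : E := ((K⁻¹ : ℝ) : ℂ) • F x with hv
  have hFv : F x = ((K : ℝ) : ℂ) • v := by
    rw [hv, smul_smul, ← Complex.ofReal_mul, mul_inv_cancel₀ hK0.ne']; simp
  have hv1 : ‖v‖ = 1 := by
    rw [hv, norm_smul, Complex.norm_real, norm_inv, Real.norm_of_nonneg hK0.le, hFx,
      inv_mul_cancel₀ hK0.ne']
  have hvv : (inner ℂ v v : ℂ) = 1 := by rw [inner_self_eq_norm_sq_to_K, hv1]; simp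
  have hvF : inner ℂ v (F x) = ((K : ℝ) : ℂ) := by rw [hFv, inner_smul_right, hvv, mul_one]
  -- adjoint
  have hadj : (ContinuousLinearMap.adjoint F) v = ((K : ℝ) : ℂ) • x := by
    have h1 : ‖(ContinuousLinearMap.adjoint F) v‖ ≤ K := by
      calc ‖(ContinuousLinearMap.adjoint F) v‖ ≤ ‖ContinuousLinearMap.adjoint F‖ * ‖v‖ :=
            ContinuousLinearMap.le_opNorm _ _
        _ = K := by rw [hv1, mul_one]; exact LinearIsometryEquiv.norm_map _ _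
    have h2 : RCLike.re (inner ℂ ((ContinuousLinearMap.adjoint F) v) (((K : ℝ) : ℂ) • x)) = K ^ 2 := by
      rw [ContinuousLinearMap.adjoint_inner_left, map_smul, inner_smul_right, hvF,
        ← Complex.ofReal_mul]
      simp [sq]
    have h3 : ‖(ContinuousLinearMap.adjoint F) v - ((K : ℝ) : ℂ) • x‖ ^ 2 ≤ 0 := by
      rw [@norm_sub_sq ℂ, h2, norm_smul, hx, Complex.norm_real, Real.norm_of_nonneg hK0.le]
      nlinarith [norm_nonneg ((ContinuousLinearMap.adjoint F) v)]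
    have h4 : ‖(ContinuousLinearMap.adjoint F) v - ((K : ℝ) : ℂ) • x‖ = 0 := by
      have := sq_nonneg ‖(ContinuousLinearMap.adjoint F) v - ((K : ℝ) : ℂ) • x‖
      exact pow_eq_zero_iff two_ne_zero |>.mp (le_antisymm h3 this)
    exact sub_eq_zero.mp (norm_eq_zero.mp h4)
  set b : ℂ := inner ℂ v x with hb
  have hFFx : inner ℂ v (F (F x)) = ((K ^ 2 : ℝ) : ℂ) * (starRingEnd ℂ) b := by
    rw [← ContinuousLinearMap.adjoint_inner_left, hadj, hFv, inner_smul_left, inner_smul_right, hb,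
      inner_conj_symm, Complex.conj_ofReal]
    push_cast; ring
  -- orthogonality
  have hb0 : b = 0 := by
    by_contra hbne
    have hbp : 0 < ‖b‖ ^ 2 := by positivity
    set τ : ℝ := (K ^ 2 - 1) / (4 * K) with hτ
    have hτ0 : 0 < τ := by
      apply div_pos _ (by positivity)
      nlinarith
    set a : ℂ := (τ : ℂ) * (starRingEnd ℂ) b with ha
    have han : ‖a‖ ^ 2 = τ ^ 2 * ‖b‖ ^ 2 := by
      rw [ha, norm_mul, Complex.norm_real, Real.norm_of_nonneg hτ0.le, RCLike.norm_conj]; ring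
    have h1 : inner ℂ v (Psi a F x) = ((K + (K ^ 2 - 1) * (τ * ‖b‖ ^ 2) - ‖a‖ ^ 2 * K : ℝ) : ℂ) := by
      have e1 : Psi a F x = F x - a • x + (starRingEnd ℂ) a • F (F x) -
          ((‖a‖ ^ 2 : ℝ) : ℂ) • F x := by
        simp [Psi]
      rw [e1, inner_sub_right, inner_add_right, inner_sub_right, inner_smul_right, inner_smul_right,
        inner_smul_right, hvF, hFFx, ← hb]
      have e2 : a * b = ((τ * ‖b‖ ^ 2 : ℝ) : ℂ) := by
        rw [ha, mul_assoc, ← Complex.normSq_eq_conj_mul_self, Complex.normSq_eq_norm_sq]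
        push_cast; ring
      have e3 : (starRingEnd ℂ) a * (((K ^ 2 : ℝ) : ℂ) * (starRingEnd ℂ) b) =
          ((K ^ 2 * (τ * ‖b‖ ^ 2) : ℝ) : ℂ) := by
        rw [ha, map_mul, Complex.conj_ofReal, Complex.conj_conj]
        have : b * (starRingEnd ℂ) b = ((‖b‖ ^ 2 : ℝ) : ℂ) := by
          rw [mul_comm, ← Complex.normSq_eq_conj_mul_self, Complex.normSq_eq_norm_sq]
        calc (τ : ℂ) * b * (((K ^ 2 : ℝ) : ℂ) * (starRingEnd ℂ) b) =
            (τ : ℂ) * ((K ^ 2 : ℝ) : ℂ) * (b * (starRingEnd ℂ) b) := by ring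
          _ = _ := by rw [this]; push_cast; ring
      rw [e2, e3]
      push_cast; ring
    have h2 : ‖(inner ℂ v (Psi a F x) : ℂ)‖ ≤ (1 + ‖a‖ ^ 2) * K := by
      calc ‖(inner ℂ v (Psi a F x) : ℂ)‖ ≤ ‖v‖ * ‖Psi a F x‖ := norm_inner_le_norm _ _
        _ ≤ ‖v‖ * (‖Psi a F‖ * ‖x‖) := by gcongr; exact (Psi a F).le_opNorm x
        _ = ‖Psi a F‖ := by rw [hv1, hx]; ring
        _ ≤ (1 + ‖a‖ ^ 2) * K := hvar a
    rw [h1, Complex.norm_real, Real.norm_eq_abs] at h2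
    have h3 := (le_abs_self _).trans h2
    rw [han] at h3
    have h4 : (K ^ 2 - 1) * (τ * ‖b‖ ^ 2) ≤ 2 * K * (τ ^ 2 * ‖b‖ ^ 2) := by linarith
    have h5 : K ^ 2 - 1 ≤ 2 * K * τ := by
      have h6 : (K ^ 2 - 1) * (τ * ‖b‖ ^ 2) ≤ 2 * K * τ * (τ * ‖b‖ ^ 2) := by linarith
      exact le_of_mul_le_mul_right h6 (by positivity)
    have h7 : 2 * K * τ = (K ^ 2 - 1) / 2 := by rw [hτ]; field_simp; ring
    nlinarith
  -- similarity
  have hsim : ‖Tm κ v * F * Sm κ v‖ ≤ 2 := by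
    have h1 : closure (Pset A q) ⊆ {H | ‖Tm κ v * H * Sm κ v‖ ≤ 2} := by
      apply closure_minimal
      · rintro H ⟨p, hp, rfl⟩
        simpa using sim_bound A hq0 hq1 hz p 1 hp hκ hκr hv1
      · exact isClosed_le (by fun_prop) continuous_const
    exact h1 hF
  have hSx : Sm κ v x = x := by
    rw [Sm_apply, ← hb, hb0]; simp
  have hTv : Tm κ v v = ((κ : ℝ) : ℂ) • v := by
    rw [Tm_apply, hvv, mul_one]
    nth_rewrite 1 [← one_smul ℂ v]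
    rw [← add_smul]
    congr 1
    push_cast; ring
  have hfin : (Tm κ v * F * Sm κ v) x = ((K * κ : ℝ) : ℂ) • v := by
    change Tm κ v (F (Sm κ v x)) = _
    rw [hSx, hFv, map_smul, hTv, smul_smul]
    push_cast; rfl
  have h8 : K * κ ≤ 2 := by
    calc K * κ = ‖(Tm κ v * F * Sm κ v) x‖ := by
          rw [hfin, norm_smul, hv1, Complex.norm_real, Real.norm_of_nonneg (by positivity), mul_one]
      _ ≤ ‖Tm κ v * F * Sm κ v‖ * ‖x‖ := ContinuousLinearMap.le_opNorm _ _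
      _ ≤ 2 := by rw [hx, mul_one]; exact hsim
  rw [le_div_iff₀ hκ]
  exact h8

/-- **The sharp bound**: `‖p(A)‖ ≤ c(q) sup |p|` over the scaled `q`-numerical range. -/
theorem main_bound [FiniteDimensional ℂ E] [Nontrivial E] (A : E →L[ℂ] E) {q : ℂ} (hq0 : 0 < ‖q‖)
    (hq1 : ‖q‖ ≤ 1)
    (hz : ∀ x : E, ‖x‖ = 1 → ‖q‖ = 1 ∨ ∃ z : E, ‖z‖ = 1 ∧ inner ℂ z x = 0) (p : ℂ[X]) (M : ℝ)
    (hM : ∀ w ∈ Om A q, ‖p.eval w‖ ≤ M) :
    ‖aeval A p‖ ≤ max 1 (2 * ‖q‖ / (1 + Real.sqrt (1 - ‖q‖ ^ 2))) * M := by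
  set s := Real.sqrt (1 - ‖q‖ ^ 2) with hs
  have hs0 : 0 ≤ s := Real.sqrt_nonneg _
  have hs2 : s ^ 2 = 1 - ‖q‖ ^ 2 := Real.sq_sqrt (by nlinarith)
  set κ : ℝ := (1 + s) / ‖q‖ with hκd
  have hκ : 0 < κ := by positivity
  have hκi : κ⁻¹ = (1 - s) / ‖q‖ := by
    rw [hκd, inv_div]
    rw [div_eq_div_iff (by positivity) hq0.ne']
    nlinarith
  have hκr : κ + κ⁻¹ = 2 / ‖q‖ := by rw [hκi, hκd]; field_simp; ring
  have hc : 2 / κ = 2 * ‖q‖ / (1 + s) := by rw [hκd]; field_simp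
  rw [← hc]
  -- nonnegativity of M
  obtain ⟨x0, hx0⟩ := exists_norm_eq E zero_le_one
  have hM0 : 0 ≤ M := by
    have h := disc_bound A hq0 hq1 hz p M hM hx0 0 (by simp; positivity)
    exact (norm_nonneg _).trans h
  have hscale : ∀ N : ℝ, 0 < N → (∀ w ∈ Om A q, ‖p.eval w‖ ≤ N) →
      ‖aeval A p‖ ≤ max 1 (2 / κ) * N := by
    intro N hN hNb
    have hmem : ((N⁻¹ : ℝ) : ℂ) • aeval A p ∈ Pset A q := by
      refine ⟨C ((N⁻¹ : ℝ) : ℂ) * p, ?_, ?_⟩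
      · intro w hw
        rw [eval_mul, eval_C, norm_mul, Complex.norm_real, norm_inv, Real.norm_of_nonneg hN.le]
        rw [inv_mul_le_iff₀ hN, mul_one]
        exact hNb w hw
      · rw [map_mul, aeval_C, Algebra.algebraMap_eq_smul_one, smul_mul_assoc, one_mul]
    have h1 := max_le A hq0 hq1 hz hκ hκr hmem
    rw [norm_smul, Complex.norm_real, norm_inv, Real.norm_of_nonneg hN.le,
      inv_mul_le_iff₀ hN] at h1
    linarith
  rcases eq_or_lt_of_le hM0 with h0 | hpos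
  · have h1 : ∀ ε : ℝ, 0 < ε → ‖aeval A p‖ ≤ max 1 (2 / κ) * ε := fun ε hε =>
      hscale ε hε fun w hw => (hM w hw).trans (by rw [← h0]; exact hε.le)
    have hmx : 0 < max 1 (2 / κ) := lt_of_lt_of_le one_pos (le_max_left _ _)
    rw [← h0, mul_zero]
    refine le_of_forall_pos_le_add fun ε hε => ?_
    have := h1 (ε / max 1 (2 / κ)) (by positivity)
    rw [mul_div_cancel₀ _ hmx.ne'] at this
    linarith
  · exact hscale M hpos hM

end Pool.Agent.U333.QN
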