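import Pool.Agent.W753.CZ.Crouzeix

/-!
# Rank-one similarities and the scaled q-numerical range
-/

set_option autoImplicit false

open Polynomial Complex

namespace Pool.Agent.U333.QN

variable {E : Type*} [NormedAddCommGroup E] [InnerProductSpace ℂ E]

/-- the rank one operator `w ↦ ⟨v, w⟩ v` -/
noncomputable def Pr (v : E) : E →L[ℂ] E := (innerSL ℂ v).smulRight v

theorem Pr_apply (v w : E) : Pr v w = inner ℂ v w • v := by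
  simp [Pr]

theorem Pr_mul_self {v : E} (hv : ‖v‖ = 1) : Pr v * Pr v = Pr v := by
  ext w
  change Pr v (Pr v w) = Pr v w
  rw [Pr_apply, Pr_apply, inner_smul_right, inner_self_eq_norm_sq_to_K, hv]
  simp

/-- `S = 1 - (1 - κ⁻¹) P` -/
noncomputable def Sm (κ : ℝ) (v : E) : E →L[ℂ] E := 1 - ((1 - κ⁻¹ : ℝ) : ℂ) • Pr v

/-- `T = 1 + (κ - 1) P` -/
noncomputable def Tm (κ : ℝ) (v : E) : E →L[ℂ] E := 1 + ((κ - 1 : ℝ) : ℂ) • Pr v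

theorem Sm_apply (κ : ℝ) (v w : E) :
    Sm κ v w = w - (((1 - κ⁻¹ : ℝ) : ℂ) * inner ℂ v w) • v := by
  simp [Sm, Pr_apply, smul_smul]

theorem Tm_apply (κ : ℝ) (v w : E) :
    Tm κ v w = w + (((κ - 1 : ℝ) : ℂ) * inner ℂ v w) • v := by
  simp [Tm, Pr_apply, smul_smul]

theorem inner_Tm (κ : ℝ) (v w u : E) : inner ℂ (Tm κ v w) u = inner ℂ w (Tm κ v u) := by
  rw [Tm_apply, Tm_apply, inner_add_left, inner_add_right, inner_smul_left, inner_smul_right,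
    map_mul, inner_conj_symm, Complex.conj_ofReal]
  ring

theorem Sm_mul_Tm {κ : ℝ} (hκ : κ ≠ 0) {v : E} (hv : ‖v‖ = 1) : Sm κ v * Tm κ v = 1 := by
  have h := Pr_mul_self hv
  unfold Sm Tm
  rw [sub_mul, mul_add, mul_add, one_mul, one_mul, mul_one, smul_mul_smul_comm, h]
  have : ((1 - κ⁻¹ : ℝ) : ℂ) * ((κ - 1 : ℝ) : ℂ) = ((κ - 1 : ℝ) : ℂ) - ((1 - κ⁻¹ : ℝ) : ℂ) := by
    rw [← Complex.ofReal_mul, ← Complex.ofReal_sub]
    congr 1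
    field_simp
  rw [this, sub_smul]
  abel

theorem Tm_mul_Sm {κ : ℝ} (hκ : κ ≠ 0) {v : E} (hv : ‖v‖ = 1) : Tm κ v * Sm κ v = 1 := by
  have h := Pr_mul_self hv
  unfold Sm Tm
  rw [mul_sub, add_mul, add_mul, one_mul, one_mul, mul_one, smul_mul_smul_comm, h]
  have : ((κ - 1 : ℝ) : ℂ) * ((1 - κ⁻¹ : ℝ) : ℂ) = ((κ - 1 : ℝ) : ℂ) - ((1 - κ⁻¹ : ℝ) : ℂ) := by
    rw [← Complex.ofReal_mul, ← Complex.ofReal_sub]
    congr 1
    field_simp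
  rw [this, sub_smul]
  abel

theorem normSq_Sm {κ : ℝ} {v w : E} (hv : ‖v‖ = 1) :
    ‖Sm κ v w‖ ^ 2 = ‖w‖ ^ 2 - (1 - κ⁻¹ ^ 2) * ‖inner ℂ v w‖ ^ 2 := by
  have h1 : ((‖Sm κ v w‖ ^ 2 : ℝ) : ℂ) = ((‖w‖ ^ 2 - (1 - κ⁻¹ ^ 2) * ‖inner ℂ v w‖ ^ 2 : ℝ) : ℂ) := by
    have h2 : (inner ℂ v v : ℂ) = 1 := by
      rw [inner_self_eq_norm_sq_to_K, hv]; simp
    have h3 : (inner ℂ (Sm κ v w) (Sm κ v w) : ℂ) = ((‖Sm κ v w‖ ^ 2 : ℝ) : ℂ) := by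
      rw [inner_self_eq_norm_sq_to_K]; push_cast; rfl
    have h4 : (inner ℂ w w : ℂ) = ((‖w‖ ^ 2 : ℝ) : ℂ) := by
      rw [inner_self_eq_norm_sq_to_K]; push_cast; rfl
    have h5 : (inner ℂ w v : ℂ) * inner ℂ v w = ((‖(inner ℂ v w : ℂ)‖ ^ 2 : ℝ) : ℂ) := by
      rw [← inner_conj_symm w v, ← Complex.normSq_eq_conj_mul_self, Complex.normSq_eq_norm_sq]
    rw [← h3, Sm_apply, inner_sub_left, inner_sub_right, inner_sub_right, inner_smul_left,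
      inner_smul_left, inner_smul_right, inner_smul_right, h2, h4, map_mul, Complex.conj_ofReal,
      inner_conj_symm]
    push_cast
    push_cast at h5
    linear_combination (-2 * (1 - (κ : ℂ)⁻¹) + (1 - (κ : ℂ)⁻¹) ^ 2) * h5
  exact_mod_cast h1

theorem normSq_Tm {κ : ℝ} {v w : E} (hv : ‖v‖ = 1) :
    ‖Tm κ v w‖ ^ 2 = ‖w‖ ^ 2 + (κ ^ 2 - 1) * ‖inner ℂ v w‖ ^ 2 := by
  have h1 : ((‖Tm κ v w‖ ^ 2 : ℝ) : ℂ) = ((‖w‖ ^ 2 + (κ ^ 2 - 1) * ‖inner ℂ v w‖ ^ 2 : ℝ) : ℂ) := by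
    have h2 : (inner ℂ v v : ℂ) = 1 := by
      rw [inner_self_eq_norm_sq_to_K, hv]; simp
    have h3 : (inner ℂ (Tm κ v w) (Tm κ v w) : ℂ) = ((‖Tm κ v w‖ ^ 2 : ℝ) : ℂ) := by
      rw [inner_self_eq_norm_sq_to_K]; push_cast; rfl
    have h4 : (inner ℂ w w : ℂ) = ((‖w‖ ^ 2 : ℝ) : ℂ) := by
      rw [inner_self_eq_norm_sq_to_K]; push_cast; rfl
    have h5 : (inner ℂ w v : ℂ) * inner ℂ v w = ((‖(inner ℂ v w : ℂ)‖ ^ 2 : ℝ) : ℂ) := by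
      rw [← inner_conj_symm w v, ← Complex.normSq_eq_conj_mul_self, Complex.normSq_eq_norm_sq]
    rw [← h3, Tm_apply, inner_add_left, inner_add_right, inner_add_right, inner_smul_left,
      inner_smul_left, inner_smul_right, inner_smul_right, h2, h4, map_mul, Complex.conj_ofReal,
      inner_conj_symm]
    push_cast
    push_cast at h5
    linear_combination (2 * ((κ : ℂ) - 1) + ((κ : ℂ) - 1) ^ 2) * h5
  exact_mod_cast h1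

/-- the Kantorovich inequality for the rank one perturbations -/
theorem kant {κ r : ℝ} (hκ : 0 < κ) (hr : 0 < r) (hκr : κ + κ⁻¹ = 2 / r) {v w : E} (hv : ‖v‖ = 1)
    (hw : ‖w‖ = 1) : (‖Sm κ v w‖ * ‖Tm κ v w‖) ^ 2 ≤ 1 / r ^ 2 := by
  set α : ℝ := ‖(inner ℂ v w : ℂ)‖ ^ 2 with hα
  rw [mul_pow, normSq_Sm hv, normSq_Tm hv, hw, ← hα]
  have h1 : 1 / r ^ 2 = ((κ + κ⁻¹) / 2) ^ 2 := by
    rw [hκr]; field_simp
  rw [h1]
  have h2 : κ * κ⁻¹ = 1 := mul_inv_cancel₀ hκ.ne'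
  have h3 : κ ^ 2 * κ⁻¹ ^ 2 = 1 := by rw [← mul_pow, h2, one_pow]
  nlinarith [mul_nonneg (sq_nonneg (κ - κ⁻¹)) (sq_nonneg (1 - 2 * α))]

theorem aeval_conj {κ : ℝ} (hκ : κ ≠ 0) {v : E} (hv : ‖v‖ = 1) (A : E →L[ℂ] E) (p : ℂ[X]) :
    aeval (Tm κ v * A * Sm κ v) p = Tm κ v * aeval A p * Sm κ v := by
  have hST := Sm_mul_Tm hκ hv
  have hTS := Tm_mul_Sm hκ hv
  have hpow : ∀ k : ℕ, (Tm κ v * A * Sm κ v) ^ k = Tm κ v * A ^ k * Sm κ v := by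
    intro k
    induction k with
    | zero => rw [pow_zero, pow_zero, mul_one, hTS]
    | succ k ih =>
      rw [pow_succ, ih, pow_succ]
      calc Tm κ v * A ^ k * Sm κ v * (Tm κ v * A * Sm κ v) =
          Tm κ v * A ^ k * (Sm κ v * Tm κ v) * A * Sm κ v := by simp only [mul_assoc]
        _ = Tm κ v * (A ^ k * A) * Sm κ v := by rw [hST]; simp only [mul_assoc, one_mul]
  rw [aeval_eq_sum_range, aeval_eq_sum_range, Finset.mul_sum, Finset.sum_mul]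
  refine Finset.sum_congr rfl fun i _ => ?_
  rw [hpow, mul_smul_comm, smul_mul_assoc]

end Pool.Agent.U333.QN
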